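import Pool.Agent.Helper264.NT.NearExp

/-!
# Dirichlet's beta function at all algebraic points near almost every point

The question is whether Catalan's constant `G = β(2)` is transcendental, where `β(s) = 1 - 3 ^ (-s) + 5 ^ (-s) - …`.

There is one set `E` of complex numbers of Hausdorff dimension `0` such that for all complex `z` outside of `E` with real part
greater than `1`, all number fields `K ⊂ ℂ`, all degrees `d`, all `A` and ALL exponents `w > 0` (arbitrarily small) there are `B`
and `T₀` such that for all `T ≥ T₀`, at ALL numbers `s` in `K` of height at most `T` with `|s - z| ≤ T ^ (-w)`, the numbers `π`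
and `β(s)` have no relation over `K` of partial degrees at most `d` and height at most `T ^ A`, not even an approximate one: all
values are greater than `T ^ (-B)`. In particular `β(s)` is not a root of a nonzero polynomial of degree at most `d` with
coefficients in `K` of height at most `T ^ A`. For `w < 1` there are many such rational `s` for all large `T`. For `n` points
`s_1, …, s_n` the same holds for the `n + 1` numbers `π`, `β(s_1), …, β(s_n)` outside of a set in `ℂ ^ n` of dimension at most
`2 n - 2`.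

Proof: the exceptional tuples lie on `C T ^ ε` hypersurfaces of degree at most `D` (`Pool.Agent.Y771.KF.stdK` of helper771 and
helper124), and the points near such hypersurfaces form a set of small dimension (uniform coverings of the zeros of polynomials
of bounded degree, `Pool.Agent.Helper264.NT.mainK`). The function `β(s)` is transcendental over `ℂ(s)` since
`3 ^ s (β(s) - 1)` tends to `-1` for real `s → ∞`.
-/

set_option autoImplicit false

open Height Filter Topology Asymptotics
open scoped ENNReal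

namespace Pool.Agent.Results.MP_631c0d_nt.BetaNearEveryPoint

/-- `chi(n)` is `1` if `n` leaves the remainder `1` modulo `4`, `-1` if `3`, and `0` for even `n` -/
def chi (n : ℕ) : ℂ := if n % 4 = 1 then 1 else if n % 4 = 3 then -1 else 0

/-- Dirichlet's beta function `β(s) = ∑ chi(n) n ^ (-s)` (for real part of `s` greater than `1`) -/
noncomputable def beta (s : ℂ) : ℂ := LSeries chi s

lemma chi_norm (n : ℕ) : ‖chi n‖ ≤ 1 := by
  unfold chi
  split_ifs <;> simp

lemma chi_absc : LSeries.abscissaOfAbsConv chi ≤ 1 :=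
  LSeries.abscissaOfAbsConv_le_of_le_const ⟨1, fun n _ => chi_norm n⟩

/-- the beta function tends to `1` exponentially -/
lemma lim2 : Tendsto (fun x : ℝ => (3 : ℂ) ^ (x : ℂ) * (beta x - 1)) atTop (𝓝 (-1)) := by
  set f : ℕ → ℂ := fun m => if m ≤ 2 then 0 else chi m with hf
  have hval : ∀ x : ℝ, 1 < x → LSeriesSummable f x ∧ LSeries f x = beta x - 1 := by
    intro x hx
    have hx' : 1 < (x : ℂ).re := by simpa using hx
    have h1 : LSeriesSummable chi x := LSeriesSummable_of_bounded_of_one_lt_re (m := 1) (fun n _ => chi_norm n) hx'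
    have h2 : LSeriesSummable LSeries.delta x := LSeriesSummable_of_bounded_of_one_lt_re (m := 1) (fun n _ => by
      unfold LSeries.delta
      split_ifs <;> simp) hx'
    have hcongr : ∀ {n : ℕ}, n ≠ 0 → (chi - LSeries.delta) n = f n := by
      intro n hn
      rw [Pi.sub_apply, hf]
      unfold LSeries.delta
      by_cases h : n = 1
      · simp [h, chi]
      · by_cases h3 : n = 2
        · simp [h3, chi]
        · have : ¬ n ≤ 2 := by omega
          simp [h, this]
    refine ⟨(LSeriesSummable_congr (x : ℂ) hcongr).1 (h1.sub h2), ?_⟩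
    rw [← LSeries_congr hcongr (x : ℂ), LSeries_sub h1 h2, LSeries_delta, Pi.one_apply]
    rfl
  have habs : LSeries.abscissaOfAbsConv f < ⊤ := by
    refine lt_of_le_of_lt (hval 2 (by norm_num)).1.abscissaOfAbsConv_le ?_
    exact EReal.coe_lt_top _
  have h := LSeries.tendsto_cpow_mul_atTop (f := f) (n := 2) (fun m hm => by simp [hf, hm]) habs
  have h1 : f (2 + 1) = -1 := by simp [hf, chi]
  rw [h1] at h
  refine h.congr' ?_
  filter_upwards [eventually_gt_atTop 1] with x hx
  rw [(hval x hx).2]
  norm_num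

lemma two_ne (x : ℂ) : (3 : ℂ) ^ x ≠ 0 := by
  rw [Complex.cpow_def_of_ne_zero three_ne_zero]
  exact Complex.exp_ne_zero _

lemma lim0 : Tendsto (fun x : ℝ => ((3 : ℂ) ^ (x : ℂ))⁻¹) atTop (𝓝 0) := by
  rw [tendsto_zero_iff_norm_tendsto_zero]
  have h1 : ∀ x : ℝ, ‖((3 : ℂ) ^ (x : ℂ))⁻¹‖ = ((3 : ℝ) ^ x)⁻¹ := by
    intro x
    rw [norm_inv]
    congr 1
    have := Complex.norm_cpow_eq_rpow_re_of_pos (x := 3) (by norm_num) (x : ℂ)
    simpa using this
  simp only [h1]
  exact (tendsto_rpow_atTop_of_base_gt_one 3 (by norm_num)).inv_tendsto_atTop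

lemma beta_lim : Tendsto (fun x : ℝ => beta x) atTop (𝓝 1) := by
  have h1 := (lim0.mul lim2).add_const 1
  rw [zero_mul, zero_add] at h1
  refine h1.congr fun x => ?_
  rw [← mul_assoc, inv_mul_cancel₀ (two_ne _)]
  ring

open Polynomial in
/-- evaluation of a polynomial in two variables at `x` and the beta function at `x` -/
noncomputable def ev (x : ℝ) : ℂ[X][X] →+* ℂ := Polynomial.eval₂RingHom (Polynomial.evalRingHom (x : ℂ)) (beta x)

open Polynomial in
lemma ev_bound (q : ℂ[X][X]) : ∃ N : ℕ, (fun x : ℝ => ev x q) =O[atTop] fun x => x ^ N := by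
  have hup : ∀ a b : ℕ, a ≤ b → (fun x : ℝ => x ^ a) =O[atTop] fun x => x ^ b := by
    intro a b hab
    refine IsBigO.of_bound 1 ?_
    filter_upwards [eventually_ge_atTop 1] with t ht
    rw [one_mul, norm_pow, norm_pow, Real.norm_of_nonneg (by linarith)]
    exact pow_le_pow_right₀ ht hab
  have hcoe : ∀ a : ℂ[X], ∃ N : ℕ, (fun x : ℝ => a.eval (x : ℂ)) =O[atTop] fun x => x ^ N := by
    intro a
    induction a using Polynomial.induction_on' with
    | add p q hp hq =>
      obtain ⟨a, ha⟩ := hp
      obtain ⟨b, hb⟩ := hq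
      refine ⟨max a b, ?_⟩
      simp only [Polynomial.eval_add]
      exact (ha.trans (hup _ _ (le_max_left _ _))).add (hb.trans (hup _ _ (le_max_right _ _)))
    | monomial n c =>
      refine ⟨n, ?_⟩
      simp only [Polynomial.eval_monomial]
      refine IsBigO.of_bound ‖c‖ (Eventually.of_forall fun x => ?_)
      rw [norm_mul, norm_pow, Complex.norm_real, norm_pow]
  induction q using Polynomial.induction_on' with
  | add p q hp hq =>
    obtain ⟨a, ha⟩ := hp
    obtain ⟨b, hb⟩ := hq
    refine ⟨max a b, ?_⟩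
    simp only [map_add]
    exact (ha.trans (hup _ _ (le_max_left _ _))).add (hb.trans (hup _ _ (le_max_right _ _)))
  | monomial n c =>
    obtain ⟨N, hN⟩ := hcoe c
    refine ⟨N, ?_⟩
    have h1 : ∀ x : ℝ, ev x (Polynomial.monomial n c) = c.eval (x : ℂ) * beta x ^ n := by
      intro x
      simp [ev]
    simp only [h1]
    have h2 : (fun x : ℝ => beta x ^ n) =O[atTop] fun _ => (1 : ℝ) := (beta_lim.pow n).isBigO_one ℝ
    simpa using hN.mul h2

open Polynomial in
lemma ev_indep (p : ℂ[X][X]) (hp : ∀ᶠ x : ℝ in atTop, ev x p = 0) : p = 0 := by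
  by_contra hne
  obtain ⟨q, hq, hnd⟩ := Polynomial.exists_eq_pow_rootMultiplicity_mul_and_not_dvd p hne (1 : ℂ[X])
  have hc : q.eval 1 ≠ 0 := fun h => hnd (Polynomial.dvd_iff_isRoot.2 h)
  obtain ⟨r, hr⟩ := Polynomial.X_sub_C_dvd_sub_C_eval (a := (1 : ℂ[X])) (p := q)
  have hX : ∀ x : ℝ, ev x (X - C (1 : ℂ[X])) = beta x - 1 := by
    intro x
    simp [ev]
  have hD : ∀ᶠ x : ℝ in atTop, beta x - 1 ≠ 0 := by
    have h1 := lim2.eventually_ne (show (-1 : ℂ) ≠ 0 by norm_num)
    filter_upwards [h1] with x hx h2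
    exact hx (by rw [h2, mul_zero])
  have hq0 : ∀ᶠ x : ℝ in atTop, ev x q = 0 := by
    filter_upwards [hp, hD] with x h1 h2
    rw [hq, map_mul, map_pow, hX] at h1
    exact (mul_eq_zero.1 h1).resolve_left (pow_ne_zero _ h2)
  have hev : ∀ x : ℝ, ev x q - (q.eval 1).eval (x : ℂ) = (beta x - 1) * ev x r := by
    intro x
    have h1 := congrArg (ev x) hr
    rw [map_sub, map_mul, hX] at h1
    rw [← h1]
    congr 1
    simp [ev]
  have hsmall : Tendsto (fun x : ℝ => (beta x - 1) * ev x r) atTop (𝓝 0) := by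
    obtain ⟨N, hN⟩ := ev_bound r
    have h1 : Tendsto (fun x : ℝ => ((3 : ℂ) ^ (x : ℂ))⁻¹ * ev x r) atTop (𝓝 0) := by
      have h2 : (fun x : ℝ => ev x r) =o[atTop] fun x : ℝ => (3 : ℂ) ^ (x : ℂ) := by
        refine hN.trans_isLittleO ?_
        have h3 := isLittleO_pow_exp_pos_mul_atTop N (Real.log_pos (by norm_num : (1 : ℝ) < 3))
        refine h3.trans_isBigO (IsBigO.of_bound 1 (Eventually.of_forall fun x => ?_))
        have h4 := Complex.norm_cpow_eq_rpow_re_of_pos (x := 3) (by norm_num) (x : ℂ)
        rw [one_mul, Real.norm_of_nonneg (Real.exp_pos _).le]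
        have h5 : ‖(3 : ℂ) ^ (x : ℂ)‖ = (3 : ℝ) ^ x := by simpa using h4
        rw [h5, Real.rpow_def_of_pos (by norm_num)]
      have h6 := h2.tendsto_div_nhds_zero
      refine h6.congr fun x => ?_
      rw [div_eq_mul_inv, mul_comm]
    have h7 := lim2.mul h1
    rw [mul_zero] at h7
    refine h7.congr fun x => ?_
    have := two_ne (x : ℂ)
    field_simp
  have hlim : Tendsto (fun x : ℝ => (q.eval 1).eval (x : ℂ)) atTop (𝓝 0) := by
    have h1 := hsmall.neg
    rw [neg_zero] at h1
    refine h1.congr' ?_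
    filter_upwards [hq0] with x hx
    rw [← hev, hx, zero_sub, neg_neg]
  by_cases hdeg : 0 < (q.eval 1).degree
  · have h1 := Polynomial.tendsto_norm_atTop (q.eval 1) hdeg (l := atTop) (z := fun x : ℝ => (x : ℂ)) (by
      simp only [Complex.norm_real]
      exact tendsto_norm_atTop_atTop)
    have h2 := hlim.norm
    rw [norm_zero] at h2
    exact not_tendsto_nhds_of_tendsto_atTop h1 0 h2
  · rw [not_lt] at hdeg
    have h1 := Polynomial.eq_C_of_degree_le_zero hdeg
    rw [h1] at hlim hc
    simp only [Polynomial.eval_C] at hlim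
    have h2 := tendsto_nhds_unique hlim tendsto_const_nhds
    exact hc (by rw [← h2, map_zero])

/-- the half plane of absolute convergence -/
def half : Set ℂ := {s | 1 < s.re}

lemma half_open : IsOpen half := isOpen_lt continuous_const Complex.continuous_re

lemma half_preconn : IsPreconnected half := (convex_halfSpace_re_gt 1).isPreconnected

lemma beta_an : AnalyticOnNhd ℂ beta half :=
  (LSeries_analyticOnNhd chi).mono fun s hs => lt_of_le_of_lt chi_absc (by exact_mod_cast (show (1 : ℝ) < s.re from hs))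

lemma beta_indep : Pool.Agent.Y771.KF.AIndepS (fun _ : Unit => beta) half := by
  classical
  intro P hP
  set p := MvPolynomial.pUnitAlgEquiv (Polynomial ℂ) (MvPolynomial.optionEquivRight ℂ Unit P) with hp
  have hev : ∀ x : ℝ, ev x p = MvPolynomial.eval (fun o : Option Unit => o.elim (x : ℂ) fun _ => beta x) P := by
    intro x
    have h1 := Pool.Agent.Helper264.NT.eval_right P (x : ℂ) fun _ => beta x
    rw [← h1, hp, ev, Polynomial.coe_eval₂RingHom]
    exact MvPolynomial.eval₂_pUnitAlgEquiv (a := fun _ => beta x)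
  have h0 : p = 0 := ev_indep p (by
    filter_upwards [eventually_gt_atTop 1] with x hx
    rw [hev]
    exact hP (x : ℂ) (by simpa [half] using hx))
  have h1 := (map_eq_zero_iff _ (MvPolynomial.pUnitAlgEquiv (Polynomial ℂ)).injective).1 h0
  exact (map_eq_zero_iff _ (MvPolynomial.optionEquivRight ℂ Unit).injective).1 h1

/-- the numbers `π, β(s_1), …, β(s_n)` -/
noncomputable def numbers {n : ℕ} (s : Fin n → ℂ) (x : Option (Fin n)) : ℂ := x.elim (Real.pi : ℂ) fun j => beta (s j)

/-- every nonzero polynomial in `n + 1` variables with coefficients in `K` of height at most `T ^ A`, of degree at most `d` in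
each variable, takes at the numbers `π, β(s_1), …, β(s_n)` a value of absolute value greater than `T ^ (-B)` -/
def Measure {n : ℕ} (K : IntermediateField ℚ ℂ) [NumberField K] (d : ℕ) (A B T : ℝ) (s : Fin n → K) : Prop :=
  ∀ P : MvPolynomial (Option (Fin n)) K, P ≠ 0 → (∀ i, P.degreeOf i ≤ d) → (∀ e, mulHeight₁ (P.coeff e) ≤ T ^ A) →
    T ^ (-B) < ‖MvPolynomial.eval₂ (algebraMap K ℂ) (numbers fun j => (s j : ℂ)) P‖

/-- the renaming of the variables -/
def ren (n : ℕ) : Option (Fin n) ≃ (Fin n × Unit) ⊕ Unit where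
  toFun o := o.elim (Sum.inr ()) fun j => Sum.inl (j, ())
  invFun := Sum.elim (fun c => some c.1) fun _ => none
  left_inv o := by cases o <;> rfl
  right_inv o := by rcases o with ⟨j, u⟩ | u <;> rfl

/-- **Theorem.** Let `n ≥ 1`. There is a subset `E` of `ℂ ^ n` of Hausdorff dimension at most `2 (n - 1)` such that for all `z`
outside of `E` whose coordinates have real parts greater than `1`, all number fields `K ⊂ ℂ`, all `d`, `A` and `w > 0` there are
`B` and `T₀` such that for all `T ≥ T₀` and all `n`-tuples `s` of elements of `K` of height at most `T` with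
`|s_j - z_j| ≤ T ^ (-w)` the numbers `π, β(s_1), …, β(s_n)` have the property `Measure`. -/
theorem result (n : ℕ) (hn : 1 ≤ n) :
    ∃ E : Set (Fin n → ℂ), dimH E ≤ ((2 * (n - 1) : ℕ) : ℝ≥0∞) ∧ ∀ z ∉ E, (∀ j, 1 < (z j).re) →
      ∀ (K : IntermediateField ℚ ℂ) [NumberField K] (d : ℕ) (A w : ℝ), 0 < w → ∃ B T₀ : ℝ, ∀ T ≥ T₀,
        ∀ s : Fin n → K, (∀ j, mulHeight₁ (s j) ≤ T ∧ ‖(s j : ℂ) - z j‖ ≤ T ^ (-w)) → Measure K d A B T s := by
  classical
  have hnn : Nonempty (Fin n) := ⟨⟨0, hn⟩⟩
  obtain ⟨E, hE1, hE2⟩ := Pool.Agent.Helper264.NT.mainK (𝕜 := ℂ) (X := Fin n) (RingHom.id ℂ) (fun _ => rfl)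
    (fun _ (_ : Unit) => beta) (fun _ : Unit => Real.pi) (fun _ => half) (fun _ => half_open) (fun _ => half_preconn)
    (fun _ _ => beta_an) (fun _ => beta_indep) Pool.Agent.Y124.goodXi_pi
  refine ⟨E, by simpa using hE1, fun z hz hz1 K _ d A w hw => ?_⟩
  obtain ⟨B, T0, h⟩ := hE2 z hz hz1 K d A w hw
  refine ⟨B, T0, fun T hT s hs => ?_⟩
  refine Pool.Agent.Helper264.NT.norel_rename (ren n) (algebraMap K ℂ) (fun _ (_ : Unit) => beta)
    (fun _ : Unit => Real.pi) d A B T s (h T hT s hs) (fun k => (hs k).1) _ ?_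
  intro o
  cases o <;> rfl

end Pool.Agent.Results.MP_631c0d_nt.BetaNearEveryPoint
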