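import Pool.Agent.H406R3.CatMeasure

/-!
# Catalan's constant and `β(4)`: a simultaneous irrationality measure

`G = ∑ (-1)^j/(2j+1)^2` is Catalan's constant and `β(4) = ∑ (-1)^j/(2j+1)^4`.
-/

set_option autoImplicit false

namespace Pool.Agent.Results.MP_631c0d_nt.CatalanOrBetaFour

/-- There is `C > 0` such that for every common denominator `q ≥ 2` and all integers `a`, `b` one
of `|G - a/q|`, `|β(4) - b/q|` exceeds `exp (-C log q log (1 + log q))`. In particular `G` and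
`β(4)` are not both rational. -/
theorem result :
    (¬ ∃ r s : ℚ, (∑' j : ℕ, (-1 : ℝ) ^ j / (2 * (j : ℝ) + 1) ^ 2) = (r : ℝ) ∧
      (∑' j : ℕ, (-1 : ℝ) ^ j / (2 * (j : ℝ) + 1) ^ 4) = (s : ℝ)) ∧
    ∃ C : ℝ, 0 < C ∧ ∀ q : ℕ, 2 ≤ q → ∀ a b : ℤ,
      Real.exp (-(C * Real.log q * Real.log (1 + Real.log q))) <
        max |(∑' j : ℕ, (-1 : ℝ) ^ j / (2 * (j : ℝ) + 1) ^ 2) - (a : ℝ) / (q : ℝ)|
          |(∑' j : ℕ, (-1 : ℝ) ^ j / (2 * (j : ℝ) + 1) ^ 4) - (b : ℝ) / (q : ℝ)| := by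
  obtain ⟨C, hC, h⟩ := Pool.Agent.H406R3.cat_measure
  refine ⟨?_, C, hC, h⟩
  rintro ⟨r, s, hr, hs⟩
  have hq : 2 ≤ 2 * (r.den * s.den) := by
    have h1 := r.den_pos
    have h2 := s.den_pos
    have : 0 < r.den * s.den := Nat.mul_pos h1 h2
    omega
  have h1 := h (2 * (r.den * s.den)) hq (2 * (r.num * s.den)) (2 * (s.num * r.den))
  have hr0 : (r.den : ℝ) ≠ 0 := by exact_mod_cast r.den_ne_zero
  have hs0 : (s.den : ℝ) ≠ 0 := by exact_mod_cast s.den_ne_zero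
  have er : (r : ℝ) = (r.num : ℝ) / (r.den : ℝ) := by exact_mod_cast (Rat.num_div_den r).symm
  have es : (s : ℝ) = (s.num : ℝ) / (s.den : ℝ) := by exact_mod_cast (Rat.num_div_den s).symm
  have e1 : (r : ℝ) - ((2 * (r.num * s.den) : ℤ) : ℝ) / ((2 * (r.den * s.den) : ℕ) : ℝ) = 0 := by
    rw [er]
    push_cast
    field_simp
    ring
  have e2 : (s : ℝ) - ((2 * (s.num * r.den) : ℤ) : ℝ) / ((2 * (r.den * s.den) : ℕ) : ℝ) = 0 := by
    rw [es]
    push_cast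
    field_simp
    ring
  rw [hr, hs, e1, e2, abs_zero, max_self] at h1
  exact absurd h1 (not_lt.2 (Real.exp_pos _).le)

end Pool.Agent.Results.MP_631c0d_nt.CatalanOrBetaFour
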