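import Pool.Agent.TH900.QM.Meas

/-!
# Catalan's constant and `π²`: two irrational combinations

`G = ∑ (-1)^j/(2j+1)^2` is Catalan's constant.
-/

set_option autoImplicit false

namespace Pool.Agent.Results.MP_631c0d_nt.CatalanPlusPiSquared

/-- The numbers `8 G + 5 π²/6` and `8 G - 5 π²/6` have irrationality measure at most `586`; in
particular both are irrational. -/
theorem result (s : ℝ) (hs : s = 1 ∨ s = -1) :
    Irrational (8 * (∑' j : ℕ, (-1 : ℝ) ^ j / (2 * (j : ℝ) + 1) ^ 2) + s * (5 * Real.pi ^ 2 / 6)) ∧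
    ∃ c : ℝ, 0 < c ∧ ∀ (a : ℤ) (b : ℕ), 0 < b →
      c / (b : ℝ) ^ 586 ≤
        |8 * (∑' j : ℕ, (-1 : ℝ) ^ j / (2 * (j : ℝ) + 1) ^ 2) + s * (5 * Real.pi ^ 2 / 6) -
          (a : ℝ) / b| := by
  have h : ∃ c : ℝ, 0 < c ∧ ∀ (a : ℤ) (b : ℕ), 0 < b →
      c / (b : ℝ) ^ 586 ≤
        |8 * (∑' j : ℕ, (-1 : ℝ) ^ j / (2 * (j : ℝ) + 1) ^ 2) + s * (5 * Real.pi ^ 2 / 6) -
          (a : ℝ) / b| := Pool.Agent.TH900.QM.main s hs
  refine ⟨?_, h⟩
  obtain ⟨c, hc, h⟩ := h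
  rintro ⟨r, hr⟩
  have h1 := h r.num r.den r.den_pos
  rw [← hr] at h1
  have er : (r : ℝ) = (r.num : ℝ) / (r.den : ℝ) := by exact_mod_cast (Rat.num_div_den r).symm
  rw [er, sub_self, abs_zero] at h1
  have : 0 < c / (r.den : ℝ) ^ 586 := by
    have : (0 : ℝ) < r.den := by exact_mod_cast r.den_pos
    positivity
  linarith

end Pool.Agent.Results.MP_631c0d_nt.CatalanPlusPiSquared
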