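import Pool.Agent.TH818.SA.MA2A

/-!
# Values at even integers of periodic Dirichlet series outside finite-dimensional spaces

With the period `4` and the sequence `0, 1, 0, -1` the series are the numbers
`β(i) = ∑ (-1)^n/(2n+1)^i`, of which Catalan's constant is `β(2)`.
-/

set_option autoImplicit false

namespace Pool.Agent.Results.MP_631c0d_nt.OutsideSubspaces

/-- For every period `f` there is `s0` such that for all `s ≥ s0`, all integer sequences `a` of
period `f` which do not vanish at all residues prime to `f`, and all subspaces `V` of `ℝ` over `ℚ`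
of dimension at most `D ≤ (log log s)/2000`, at least
`1/(4000 f D) · √(s log log s / log s)` of the values `∑ a(n)/n^i` with `2 ≤ i ≤ s` even are
outside `V`. -/
theorem result : ∀ f : ℕ, 1 ≤ f → ∃ s0 : ℕ, ∀ s ≥ s0, ∀ a : ℕ → ℤ,
    (∀ u, a (u + f) = a u) → (∃ u, Nat.Coprime u f ∧ a u ≠ 0) → ∀ D : ℕ, 1 ≤ D →
    (D : ℝ) ≤ (1 / 2000) * Real.log (Real.log s) →
    ∀ V : Submodule ℚ ℝ, FiniteDimensional ℚ V → Module.finrank ℚ V ≤ D →
    (1 / 4000) / (f * D) * Real.sqrt (s * Real.log (Real.log s) / Real.log s) ≤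
      (Set.ncard {i : ℕ | 2 ≤ i ∧ i ≤ s ∧ Even i ∧
        (∑' n : ℕ, (a (n + 1) : ℝ) / ((n : ℝ) + 1) ^ i) ∉ V} : ℝ) :=
  Pool.Agent.TH818.SA.t_suba

end Pool.Agent.Results.MP_631c0d_nt.OutsideSubspaces
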